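import Pool.Agent.KS6_32.RS.Rel
import Pool.Agent.KS6_32.RS.CopC

/-!
Classification: exactly for which sets `R` of permutations the problem `RT^2_2` is computably
reducible to the problem of avoiding all members of `R` at the same time; relative to every oracle
and for every number of colours, with one stable colouring as a witness of all the failures.
-/

set_option autoImplicit false

namespace Pool.Agent.Results.MP_cb9c95_lc.SetsOfPatterns

open Pool.Agent.Helper446 Pool.Agent.Helper446.Defs Pool.Agent.Helper446.Oracle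
  Pool.Agent.H904R6.CR.Real Pool.Agent.H904R6.CR.Neg Pool.Agent.H904R6.CR.Pos
  Pool.Agent.H904R6.CR.Final Pool.Agent.H904R6.CR

/-- the set `A` is computable from the set `B` -/
def Red (A B : Set ℕ) : Prop := TuringReducible (chi A) (chi B)

/-- colourings `g : [ℕ]^2 → ℕ`, with finitely or infinitely many colours -/
abbrev ColoringN := {p : ℕ × ℕ // p.1 < p.2} → ℕ

/-- the set of natural numbers coding the colouring `g` (as an oracle) -/
def codeN (g : ColoringN) : Set ℕ :=
  {n | ∃ x y, ∃ h : x < y, n = Nat.pair (Nat.pair x y) (g ⟨(x, y), h⟩)}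

/-- the solutions of the instance `g` of the problem of the pattern `p : [l]^2 → ℕ`: infinite sets
which `g`-avoid `p` -/
def Avoid (l : ℕ) (p : ℕ → ℕ → ℕ) (g : ColoringN) (G : Set ℕ) : Prop :=
  G.Infinite ∧ ¬ ∃ x : ℕ → ℕ, (∀ i, i < l → x i ∈ G) ∧
    ∀ i j, i < j → j < l → ∃ h : x i < x j, g ⟨(x i, x j), h⟩ = p i j

/-- the pattern of the permutation `π`, written with the colours `a` and `b` -/
def patC (a b : ℕ) (π : List ℕ) (i j : ℕ) : ℕ := if π.getD i 0 < π.getD j 0 then a else b

/-- the solutions of the instance `g` of the problem of the set `R` of permutations, written with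
the colours `a` and `b`: infinite sets which `g`-avoid all members of `R` -/
def AvoidAll (a b : ℕ) (R : Set (List ℕ)) (g : ColoringN) (G : Set ℕ) : Prop :=
  G.Infinite ∧ ∀ π ∈ R, Avoid π.length (patC a b π) g G

/-- the pattern `p : [l]^2 → ℕ` contains a pattern `(a, c, c)` of size three with `a ≠ c` -/
def HasACC (c l : ℕ) (p : ℕ → ℕ → ℕ) : Prop := ∃ i j k, i < j ∧ j < k ∧ k < l ∧
  p i j ≠ c ∧ p i k = c ∧ p j k = c

/-- `RT^2_2` is computably reducible, relative to the oracle `P`, to the problem whose instances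
are the colourings `g : [ℕ]^2 → K` (`K` the set of colours) and whose solutions are the sets
`Q g` -/
def CRedK (P K : Set ℕ) (Q : ColoringN → Set ℕ → Prop) : Prop :=
  ∀ f : Coloring, ∃ g : ColoringN, (∀ e, g e ∈ K) ∧ Red (codeN g) (join P (code f)) ∧
    ∀ G, Q g G → ∃ H, RT22 f H ∧ Red H (join (join P (code f)) G)

/-- `H` is an infinite set on which the limit colours `lim_y f(x, y)` are constant -/
def LimHom (f : Coloring) (H : Set ℕ) : Prop :=
  H.Infinite ∧ ∃ i : Fin 2, ∀ x ∈ H, ∃ n, ∀ y, ∀ h : x < y, n ≤ y → f ⟨(x, y), h⟩ = i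

theorem limHom_of {f : Coloring} (hf : Stable f) {H : Set ℕ} (h : RT22 f H) : LimHom f H := by
  obtain ⟨h1, i, hi⟩ := h
  refine ⟨h1, i, fun x hx => ?_⟩
  obtain ⟨c, n, hn⟩ := hf x
  obtain ⟨y, hy, hyn⟩ := h1.exists_gt (max n x)
  have hxy : x < y := by omega
  refine ⟨n, fun z hz hnz => ?_⟩
  rw [hn z hz hnz, ← hn y hxy (by omega)]
  exact hi x y hxy hx hy

/-- the indicator colouring of the colour `c` -/
def ind (c : ℕ) (g : ColoringN) : Col := fun x y =>
  if h : x < y then decide (g ⟨(x, y), h⟩ = c) else false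

theorem ind_eq (c : ℕ) (g : ColoringN) {x y : ℕ} (h : x < y) :
    ind c g x y = decide (g ⟨(x, y), h⟩ = c) := by
  unfold ind
  rw [dif_pos h]

theorem mem_cod_ind (c : ℕ) (g : ColoringN) (n : ℕ) :
    Nat.pair n c ∈ codeN g ↔ n ∈ cod (ind c g) := by
  constructor
  · rintro ⟨x, y, h, he⟩
    obtain ⟨h1, h2⟩ := Nat.pair_eq_pair.1 he
    exact ⟨x, y, h, h1, by rw [ind_eq c g h, ← h2]; simp⟩
  · rintro ⟨x, y, h, rfl, h1⟩
    rw [ind_eq c g h] at h1
    exact ⟨x, y, h, by rw [of_decide_eq_true h1]⟩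

theorem dec_iff {A J : Set ℕ} : Red A J ↔ Dec J fun n : ℕ => n ∈ A :=
  ⟨fun h => ⟨(turingReducible_iff.1 h).1, (turingReducible_iff.1 h).2⟩,
    fun h => turingReducible_iff.2 ⟨h.1, h.2⟩⟩

theorem red_ind {c : ℕ} {g : ColoringN} {J : Set ℕ} (h : Red (codeN g) J) :
    TuringReducible (chi (cod (ind c g))) (chi J) := by
  refine dec_iff.2 (((dec_iff.1 h).comp (f := fun n : ℕ => Nat.pair n c) (by fun_prop)).of_eq
    fun n => mem_cod_ind c g n)

/-- the negative part -/
theorem negative (P : Set ℕ) : ∃ f : Coloring, Stable f ∧ ∀ g : ColoringN,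
    Red (codeN g) (join P (code f)) → ∀ c : ℕ, ∃ G : Set ℕ, G.Infinite ∧
      (∀ (l : ℕ) (p : ℕ → ℕ → ℕ), HasACC c l p → Avoid l p g G) ∧
      ∀ H, LimHom f H → ¬ Red H (join (join P (code f)) G) := by
  obtain ⟨f, A, hlim, hf⟩ := Pool.Agent.KS6_32.RS.mainP P
  refine ⟨toC f, stable_toC fun x => ⟨A x, hlim x⟩, fun g hg c => ?_⟩
  rw [code_toC] at hg ⊢
  obtain ⟨G, hGi, hGv, hGH⟩ := hf (ind c g) (fun x y h => by unfold ind; rw [dif_neg h])
    (red_ind hg)
  refine ⟨G, hGi, fun l p hp => ⟨hGi, ?_⟩, fun H hH hHr => ?_⟩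
  · obtain ⟨i, j, k, hij, hjk, hk, h1, h2, h3⟩ := hp
    rintro ⟨x, hx, hp⟩
    obtain ⟨a1, b1⟩ := hp i j hij (by omega)
    obtain ⟨a2, b2⟩ := hp i k (by omega) hk
    obtain ⟨a3, b3⟩ := hp j k hjk hk
    refine hGv (x i) (x j) (x k) a1 a3 (hx _ (by omega)) (hx _ (by omega)) (hx _ hk) ⟨?_, ?_, ?_⟩
    · rw [ind_eq c g a1, b1]
      exact decide_eq_false h1
    · rw [ind_eq c g a2, b2]
      exact decide_eq_true h2
    · rw [ind_eq c g a3, b3]
      exact decide_eq_true h3
  · obtain ⟨hHi, i, hi⟩ := hH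
    refine hGH H hHi ⟨decide (i = 1), fun x hx => ?_⟩ hHr
    obtain ⟨n, hn⟩ := hi x hx
    obtain ⟨m, hm⟩ := hlim x
    have h1 := hn (n + m + x + 1) (by omega) (by omega)
    have h2 := hm (n + m + x + 1) (by omega)
    rw [← h2]
    unfold toC at h1
    simp only at h1
    by_cases h3 : f x (n + m + x + 1) = true
    · rw [if_pos h3] at h1
      rw [h3, ← h1]; rfl
    · rw [if_neg h3] at h1
      rw [Bool.not_eq_true] at h3
      rw [h3, ← h1]; rfl

/-- recolouring a 2-colouring with the colours `a`, `b` -/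
def rec2 (a b : ℕ) (f : Coloring) : ColoringN := fun e => if f e = 0 then a else b

theorem dec_code {P : Set ℕ} {f : Coloring} : Dec (join P (code f)) fun n : ℕ => n ∈ code f :=
  set_join P (code f)

theorem dec_code2 {P G : Set ℕ} {f : Coloring} :
    Dec (join (join P (code f)) G) fun n : ℕ => n ∈ code f := by
  refine Dec.of_eq (Dec.mem (f := fun n : ℕ => 2 * (2 * n + 1)) (by fun_prop)) fun n => ?_
  unfold join
  constructor
  · rintro (⟨_, h⟩ | ⟨h, _⟩)
    · have e1 : 2 * (2 * n + 1) / 2 = 2 * n + 1 := by omega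
      rw [e1] at h
      rcases h with ⟨h, _⟩ | ⟨_, h⟩
      · omega
      · have e2 : (2 * n + 1) / 2 = n := by omega
        rwa [e2] at h
    · omega
  · intro h
    left
    have e1 : 2 * (2 * n + 1) / 2 = 2 * n + 1 := by omega
    refine ⟨by omega, ?_⟩
    rw [e1]
    right
    have e2 : (2 * n + 1) / 2 = n := by omega
    refine ⟨by omega, ?_⟩
    rwa [e2]

theorem mem_codeN_rec2 (a b : ℕ) (f : Coloring) (hab : a ≠ b) (n : ℕ) :
    ((n.unpair.1.unpair.1 < n.unpair.1.unpair.2) ∧
      ((¬ (¬ (n.unpair.1 ∈ code f ∧ n.unpair.2 = b) ∧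
        ¬ (¬ (n.unpair.1 ∈ code f) ∧ n.unpair.2 = a))))) ↔ n ∈ codeN (rec2 a b f) := by
  constructor
  · rintro ⟨h, h1⟩
    refine ⟨n.unpair.1.unpair.1, n.unpair.1.unpair.2, h, ?_⟩
    rw [Nat.pair_unpair]
    have h2 : n.unpair.1 ∈ code f ↔ fv f n.unpair.1.unpair.1 n.unpair.1.unpair.2 = 1 := by
      rw [← mem_code f h, Nat.pair_unpair]
    have h3 : n.unpair.2 = rec2 a b f ⟨(n.unpair.1.unpair.1, n.unpair.1.unpair.2), h⟩ := by
      unfold rec2
      rw [← fv_eq f h]
      by_cases h4 : n.unpair.1 ∈ code f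
      · rw [h2.1 h4, if_neg (by decide)]
        by_contra h5
        exact h1 ⟨fun h6 => h5 h6.2, fun h6 => h6.1 h4⟩
      · have h5 : fv f n.unpair.1.unpair.1 n.unpair.1.unpair.2 = 0 := by
          rcases fin2 (fv f n.unpair.1.unpair.1 n.unpair.1.unpair.2) with h6 | h6
          · exact h6
          · exact absurd (h2.2 h6) h4
        rw [h5, if_pos rfl]
        by_contra h5
        exact h1 ⟨fun h6 => h4 h6.1, fun h6 => h5 h6.2⟩
    rw [← h3, Nat.pair_unpair]
  · rintro ⟨x, y, h, rfl⟩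
    simp only [Nat.unpair_pair]
    refine ⟨h, ?_⟩
    have h2 := mem_code f h
    rintro ⟨h3, h4⟩
    unfold rec2 at h3 h4
    rw [← fv_eq f h] at h3 h4
    rcases fin2 (fv f x y) with h5 | h5
    · refine h4 ⟨fun h6 => ?_, by rw [if_pos h5]⟩
      rw [h2, h5] at h6
      exact absurd h6 (by decide)
    · refine h3 ⟨h2.2 h5, ?_⟩
      rw [h5, if_neg (by decide)]

theorem dec_rec2 (a b : ℕ) (hab : a ≠ b) (f : Coloring) {J : Set ℕ}
    (hf : Dec J fun n : ℕ => n ∈ code f) : Dec J fun n : ℕ => n ∈ codeN (rec2 a b f) := by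
  have deq : ∀ v : ℕ, Dec J fun n : ℕ => n.unpair.2 = v := by
    intro v
    refine ((Dec.lt (f := fun n : ℕ => n.unpair.2) (g := fun _ : ℕ => v) (by fun_prop)
      (by fun_prop)).not.and (Dec.lt (f := fun _ : ℕ => v) (g := fun n : ℕ => n.unpair.2)
      (by fun_prop) (by fun_prop)).not).of_eq fun n => ?_
    omega
  have h1 : Dec J fun n : ℕ => n.unpair.1 ∈ code f :=
    hf.comp (f := fun n : ℕ => n.unpair.1) (by fun_prop)
  have h2 : Dec J fun n : ℕ => n.unpair.1.unpair.1 < n.unpair.1.unpair.2 :=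
    Dec.lt (by fun_prop) (by fun_prop)
  exact (h2.and (((h1.and (deq b)).not.and (h1.not.and (deq a)).not).not)).of_eq fun n =>
    mem_codeN_rec2 a b f hab n

theorem pat_tr (π : List ℕ) (r : Fin 2) (i j k : ℕ) (h1 : pat π i j = r) (h2 : pat π j k = r) :
    pat π i k = r := by
  unfold pat at h1 h2 ⊢
  rcases fin2 r with rfl | rfl
  · by_cases h3 : π.getD i 0 < π.getD j 0
    · by_cases h4 : π.getD j 0 < π.getD k 0
      · rw [if_pos (by omega)]
      · rw [if_neg h4] at h2
        exact absurd h2 (by decide)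
    · rw [if_neg h3] at h1
      exact absurd h1 (by decide)
  · by_cases h3 : π.getD i 0 < π.getD j 0
    · rw [if_pos h3] at h1
      exact absurd h1 (by decide)
    · by_cases h4 : π.getD j 0 < π.getD k 0
      · rw [if_pos h4] at h2
        exact absurd h2 (by decide)
      · rw [if_neg (by omega)]

theorem pat0 {π : List ℕ} {i j : ℕ} (h : pat π i j = 0) : π.getD i 0 < π.getD j 0 := by
  unfold pat at h
  by_contra h1
  rw [if_neg h1] at h
  exact absurd h (by decide)

theorem pat1 {π : List ℕ} (hnd : π.Nodup) {i j : ℕ} (hij : i < j) (hj : j < π.length)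
    (h : pat π i j = 1) : π.getD j 0 < π.getD i 0 := by
  unfold pat at h
  by_cases h1 : π.getD i 0 < π.getD j 0
  · rw [if_pos h1] at h
    exact absurd h (by decide)
  · have hinj : π.getD i 0 ≠ π.getD j 0 := by
      rw [List.getD_eq_getElem _ _ (by omega), List.getD_eq_getElem _ _ hj]
      intro he
      have := (List.Nodup.getElem_inj_iff hnd).1 he
      omega
    omega

/-- the positive part -/
theorem positive (P K : Set ℕ) (a b : ℕ) (ha : a ∈ K) (hb : b ∈ K) (hab : a ≠ b)
    (R : Set (List ℕ)) (hR : ∀ π ∈ R, π.Nodup) (h120 : ∃ π ∈ R, ¬ Has120 π)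
    (h102 : ∃ π ∈ R, ¬ Has102 π) : CRedK P K (AvoidAll a b R) := by
  intro f
  refine ⟨rec2 a b f, fun e => ?_, dec_iff.2 (dec_rec2 a b hab f dec_code), ?_⟩
  · unfold rec2
    split_ifs
    · exact ha
    · exact hb
  rintro G ⟨hG, hno⟩
  obtain ⟨π1, hπ1, h1⟩ := h120
  obtain ⟨π0, hπ0, h0⟩ := h102
  have hno' : ∀ π ∈ R, ¬ ∃ x : ℕ → ℕ, (∀ i, i < π.length → x i ∈ G) ∧
      ∀ i j, i < j → j < π.length → ∃ h : x i < x j, f ⟨(x i, x j), h⟩ = pat π i j := by
    rintro π hπ ⟨x, hx1, hx2⟩
    refine (hno π hπ).2 ⟨x, hx1, fun i j hij hj => ?_⟩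
    obtain ⟨h, h1⟩ := hx2 i j hij hj
    refine ⟨h, ?_⟩
    unfold rec2 patC
    rw [h1]
    unfold pat
    split_ifs <;> first | rfl | (rename_i h2 h3; exact absurd h3 (by decide)) |
      (rename_i h2 h3; exact absurd rfl h3)
  obtain ⟨H, hH1, hH2⟩ := Pool.Agent.KS6_32.RS.positive2 f
    (J := join (join P (code f)) G) dec_code2 G hG (set_join (join P (code f)) G)
    (fun s => if s = 0 then π0.length else π1.length)
    (fun s => if s = 0 then pat π0 else pat π1)
    (by
      intro s r i j k _ _ _ h2 h3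
      rcases fin2 s with rfl | rfl
      · simp only [if_true] at h2 h3 ⊢
        exact pat_tr π0 r i j k h2 h3
      · simp only [Fin.one_eq_zero_iff, if_false] at h2 h3 ⊢
        exact pat_tr π1 r i j k h2 h3)
    (by
      intro s i j k hij hjk hk ⟨h2, h3, h4⟩
      rcases fin2 s with rfl | rfl
      · simp only [if_true] at h2 h3 h4 hk
        have g1 := pat1 (hR π0 hπ0) hij (by omega) h2
        have g2 := pat0 h3
        exact h0 ⟨i, j, k, hij, hjk, hk, g1, g2⟩
      · have e : ¬ ((1 : Fin 2) = 0) := by decide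
        simp only [if_neg e] at h2 h3 h4 hk
        have g1 := pat0 h2
        have g2 := pat1 (hR π1 hπ1) (by omega) hk h3
        exact h1 ⟨i, j, k, hij, hjk, hk, g2, g1⟩)
    (by
      intro s
      rcases fin2 s with rfl | rfl
      · exact hno' π0 hπ0
      · exact hno' π1 hπ1)
  exact ⟨H, hH1, dec_iff.2 hH2⟩

theorem has120_of (a b : ℕ) (hab : a ≠ b) (π : List ℕ) (h : Has120 π) :
    HasACC b π.length (patC a b π) := by
  obtain ⟨i, j, k, hij, hjk, hk, h1, h2⟩ := h
  refine ⟨i, j, k, hij, hjk, hk, ?_, ?_, ?_⟩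
  · unfold patC
    rw [if_pos h2]
    exact hab
  · unfold patC
    rw [if_neg (by omega)]
  · unfold patC
    rw [if_neg (by omega)]

theorem has102_of (a b : ℕ) (hab : a ≠ b) (π : List ℕ) (h : Has102 π) :
    HasACC a π.length (patC a b π) := by
  obtain ⟨i, j, k, hij, hjk, hk, h1, h2⟩ := h
  refine ⟨i, j, k, hij, hjk, hk, ?_, ?_, ?_⟩
  · unfold patC
    rw [if_neg (by omega)]
    exact hab.symm
  · unfold patC
    rw [if_pos h2]
  · unfold patC
    rw [if_pos (by omega)]

/-- if all members of `R` contain a triple `(x, c, c)`, `x ≠ c`, with the same `c`, there is no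
reduction -/
theorem not_all (P K : Set ℕ) (a b c : ℕ) (R : Set (List ℕ))
    (h : ∀ π ∈ R, HasACC c π.length (patC a b π)) : ¬ CRedK P K (AvoidAll a b R) := by
  intro hred
  obtain ⟨f, hst, hf⟩ := negative P
  obtain ⟨g, _, hg, hG⟩ := hred f
  obtain ⟨G, h0, h1, h2⟩ := hf g hg c
  obtain ⟨H, h3, h4⟩ := hG G ⟨h0, fun π hπ => h1 _ _ (h π hπ)⟩
  exact h2 H (limHom_of hst h3) h4

theorem not_credK (P K : Set ℕ) (l : ℕ) (p : ℕ → ℕ → ℕ) (c : ℕ) (h : HasACC c l p) :
    ¬ CRedK P K (Avoid l p) := by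
  intro hred
  obtain ⟨f, hst, hf⟩ := negative P
  obtain ⟨g, _, hg, hG⟩ := hred f
  obtain ⟨G, _, h1, h2⟩ := hf g hg c
  obtain ⟨H, h3, h4⟩ := hG G (h1 l p h)
  exact h2 H (limHom_of hst h3) h4

/-- **Main theorem.** Let `P` be any oracle.
(1) Classification. Let `R` be any (finite or infinite) set of permutations, written with two
colours `a`, `b` of a set `K` of colours. Relative to `P`, `RT^2_2` is computably reducible to the
problem of avoiding all members of `R` at the same time (for the colourings `[ℕ]^2 → K`) if and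
only if some member of `R` does not contain 120 and some member of `R` does not contain 102. So for
one permutation `π`: if and only if `π` contains neither 120 nor 102.
(2) One witness of all the failures: there is a stable colouring `f : [ℕ]^2 → 2` such that for every
colouring `g : [ℕ]^2 → ℕ` (finitely or infinitely many colours) computable from `P ⊕ f` and every
colour `c` there is an infinite set `G` which `g`-avoids all patterns that contain a triple
`(x, c, c)` with `x ≠ c`, and `P ⊕ f ⊕ G` computes no infinite set on which the limit colours of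
`f` are constant, and no infinite `f`-homogeneous set.
(3) Hence there is no reduction to the problem of any single pattern, in any number of colours, of
this kind.
(4) 120 and 102 are separable. -/
theorem result (P : Set ℕ) :
    (∀ (K : Set ℕ) (a b : ℕ), a ∈ K → b ∈ K → a ≠ b → ∀ R : Set (List ℕ), (∀ π ∈ R, π.Nodup) →
      (CRedK P K (AvoidAll a b R) ↔ (∃ π ∈ R, ¬ Has120 π) ∧ ∃ π ∈ R, ¬ Has102 π)) ∧
    (∃ f : Coloring, Stable f ∧ ∀ g : ColoringN,
      Red (codeN g) (join P (code f)) → ∀ c : ℕ, ∃ G : Set ℕ, G.Infinite ∧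
        (∀ (l : ℕ) (p : ℕ → ℕ → ℕ), HasACC c l p → Avoid l p g G) ∧
        (∀ H, LimHom f H → ¬ Red H (join (join P (code f)) G)) ∧
        ∀ H, RT22 f H → ¬ Red H (join (join P (code f)) G)) ∧
    (∀ (K : Set ℕ) (l : ℕ) (p : ℕ → ℕ → ℕ), (∃ c, HasACC c l p) → ¬ CRedK P K (Avoid l p)) ∧
    Separable [1, 2, 0] ∧ Separable [1, 0, 2] := by
  refine ⟨fun K a b ha hb hab R hR => ⟨fun h => ?_, fun h =>
    positive P K a b ha hb hab R hR h.1 h.2⟩, ?_, fun K l p ⟨c, hc⟩ => not_credK P K l p c hc,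
    sep120, sep102⟩
  · constructor
    · by_contra h1
      push Not at h1
      exact not_all P K a b b R (fun π hπ => has120_of a b hab π (h1 π hπ)) h
    · by_contra h1
      push Not at h1
      exact not_all P K a b a R (fun π hπ => has102_of a b hab π (h1 π hπ)) h
  · obtain ⟨f, hst, hf⟩ := negative P
    refine ⟨f, hst, fun g hg c => ?_⟩
    obtain ⟨G, h1, h2, h3⟩ := hf g hg c
    exact ⟨G, h1, h2, h3, fun H hH => h3 H (limHom_of hst hH)⟩

end Pool.Agent.Results.MP_cb9c95_lc.SetsOfPatterns
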